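import Pool.Agent.Lib.MP_2e793b_nt.Iface

/-!
MP_2e793b_nt, module MONO: one quadratic series is in canonical form.
-/

set_option autoImplicit false

namespace Pool.Agent.Lib.MP_2e793b_nt.H18

open Finset

theorem tri_succ (m : ℕ) : (m + 1) * (m + 1 - 1) / 2 = m * (m - 1) / 2 + m := by
  rcases m with _ | m
  · rfl
  · have h : (m + 1 + 1) * (m + 1 + 1 - 1) = (m + 1) * (m + 1 - 1) + 2 * (m + 1) := by
      simp only [Nat.add_sub_cancel]; ring
    rw [h, Nat.add_mul_div_left _ _ (by norm_num : 0 < 2)]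

theorem two_tri (m : ℕ) : 2 * (m * (m - 1) / 2) + m = m * m := by
  induction m with
  | zero => rfl
  | succ m ih =>
    rw [tri_succ]
    nlinarith [ih]

theorem le_tri (m : ℕ) : m ≤ m * (m - 1) / 2 + 1 := by
  induction m with
  | zero => omega
  | succ m ih =>
    rw [tri_succ]
    omega

theorem summ (b G Y : ℕ) (hb : 2 ≤ b) (hY : 1 ≤ Y) :
    Summable (fun m : ℕ => 1 / (b : ℝ) ^ (G * m + Y * (m * (m - 1) / 2))) := by
  have hb1 : (1 : ℝ) < b := by exact_mod_cast (by omega : 1 < b)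
  have hb0 : (0 : ℝ) < b := by linarith
  have hg : Summable (fun m : ℕ => (b : ℝ) * (1 / (b : ℝ)) ^ m) := by
    apply Summable.mul_left
    apply summable_geometric_of_lt_one
    · positivity
    · rw [div_lt_one hb0]; exact hb1
  refine Summable.of_nonneg_of_le (fun m => by positivity) (fun m => ?_) hg
  have h1 : m ≤ (G * m + Y * (m * (m - 1) / 2)) + 1 := by
    have := le_tri m
    have h2 : m * (m - 1) / 2 ≤ Y * (m * (m - 1) / 2) := Nat.le_mul_of_pos_left _ (by omega)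
    have h3 : 0 ≤ G * m := Nat.zero_le _
    omega
  rw [one_div, one_div, inv_pow]
  have h2 : (b : ℝ) ^ m ≤ (b : ℝ) ^ ((G * m + Y * (m * (m - 1) / 2)) + 1) :=
    pow_le_pow_right₀ hb1.le h1
  rw [pow_succ] at h2
  have h3 : (0 : ℝ) < (b : ℝ) ^ m := by positivity
  have h4 : (0 : ℝ) < (b : ℝ) ^ (G * m + Y * (m * (m - 1) / 2)) := by positivity
  rw [← div_eq_mul_inv, inv_eq_one_div, div_le_div_iff₀ h4 h3]
  nlinarith [h2]

/-- the general reduction: a progression `r + 2 Y j`, all the values of the floor are explicit. -/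
theorem can_of (b Y r K : ℕ) (x s : ℝ) (R : ℤ) (hY : 1 ≤ Y) (hr : r < 2 * Y)
    (hs : HasSum (fun j : ℕ => (b : ℝ) ^ K / (b : ℝ) ^ ((r + 2 * Y * j) ^ 2 / (8 * Y))) s)
    (hx : s = x - R) : Can b (8 * Y) x := by
  classical
  refine ⟨1, R, fun u => if u % (2 * Y) = r then (b : ℤ) ^ K else 0, one_ne_zero, ?_, ?_⟩
  · intro u
    have h : (u + 8 * Y) % (2 * Y) = u % (2 * Y) := by
      have : u + 8 * Y = u + 2 * Y * 4 := by ring
      rw [this, Nat.add_mul_mod_self_left]
    simp only [h]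
  · have hx' : ((1 : ℤ) : ℝ) * x - R = s := by rw [hx]; push_cast; ring
    rw [hx']
    set g : ℕ → ℕ := fun j => r + 2 * Y * j with hg
    have hinj : Function.Injective g := by
      intro i j hij
      simp only [hg] at hij
      have h1 : 2 * Y * i = 2 * Y * j := by omega
      exact Nat.eq_of_mul_eq_mul_left (by omega) h1
    rw [← hinj.hasSum_iff (f := fun u : ℕ => (((if u % (2 * Y) = r then (b : ℤ) ^ K else 0 : ℤ) : ℝ)
      / (b : ℝ) ^ (u ^ 2 / (8 * Y))))]
    · convert hs using 2 with j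
      simp only [hg, Function.comp]
      have h : (r + 2 * Y * j) % (2 * Y) = r := by
        rw [Nat.add_mul_mod_self_left, Nat.mod_eq_of_lt hr]
      rw [if_pos h]
      push_cast
      rfl
    · intro u hu
      have h : ¬ u % (2 * Y) = r := by
        intro h
        apply hu
        refine ⟨u / (2 * Y), ?_⟩
        simp only [hg]
        have := Nat.mod_add_div u (2 * Y)
        rw [h] at this
        exact this
      simp only [if_neg h]
      simp

theorem mono : MonoStmt := by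
  intro b G Y hb hY
  have hS := summ b G Y hb hY
  refine ⟨hS, ?_⟩
  have hb0 : (0 : ℝ) < b := by exact_mod_cast (by omega : 0 < b)
  have hH := hS.hasSum
  set x : ℝ := ∑' m : ℕ, 1 / (b : ℝ) ^ (G * m + Y * (m * (m - 1) / 2)) with hx
  by_cases hGY : Y ≤ 2 * G
  · -- `κ = 2 G - Y ≥ 0`
    obtain ⟨κ, hκ⟩ : ∃ κ : ℕ, 2 * G = Y + κ := ⟨2 * G - Y, by omega⟩
    set q := κ / (2 * Y) with hq
    set r := κ % (2 * Y) with hr
    set K := κ ^ 2 / (8 * Y) with hK
    have hrlt : r < 2 * Y := Nat.mod_lt _ (by omega)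
    have hκr : r + 2 * Y * q = κ := Nat.mod_add_div κ (2 * Y)
    have hterm : ∀ m : ℕ, (r + 2 * Y * (m + q)) ^ 2 / (8 * Y) =
        K + (G * m + Y * (m * (m - 1) / 2)) := by
      intro m
      have h1 : r + 2 * Y * (m + q) = κ + 2 * Y * m := by rw [← hκr]; ring
      have h2 : (κ + 2 * Y * m) ^ 2 = κ ^ 2 + 8 * Y * (G * m + Y * (m * (m - 1) / 2)) := by
        have h3 := two_tri m
        have h4 : 8 * Y * (G * m + Y * (m * (m - 1) / 2)) =
            4 * Y * m * (2 * G) + 4 * Y * Y * (2 * (m * (m - 1) / 2)) := by ring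
        rw [h4, hκ]
        have h5 : 4 * Y * Y * (2 * (m * (m - 1) / 2)) + 4 * Y * Y * m = 4 * Y * Y * (m * m) := by
          rw [← h3]; ring
        nlinarith [h5]
      rw [h1, h2, Nat.add_mul_div_left _ _ (by omega : 0 < 8 * Y)]
    have hfin : ∀ i ∈ range q, (b : ℝ) ^ K / (b : ℝ) ^ ((r + 2 * Y * i) ^ 2 / (8 * Y)) =
        (((b : ℤ) ^ (K - (r + 2 * Y * i) ^ 2 / (8 * Y)) : ℤ) : ℝ) := by
      intro i hi
      have hi' : i < q := mem_range.mp hi
      have h1 : r + 2 * Y * i ≤ κ := by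
        rw [← hκr]
        have : 2 * Y * i ≤ 2 * Y * q := Nat.mul_le_mul_left _ hi'.le
        omega
      have h2 : (r + 2 * Y * i) ^ 2 / (8 * Y) ≤ K :=
        Nat.div_le_div_right (Nat.pow_le_pow_left h1 2)
      push_cast
      rw [div_eq_iff (by positivity), ← pow_add, Nat.sub_add_cancel h2]
    set R : ℤ := - ∑ i ∈ range q, (b : ℤ) ^ (K - (r + 2 * Y * i) ^ 2 / (8 * Y)) with hR
    refine can_of b Y r K x (x + ∑ i ∈ range q,
      (b : ℝ) ^ K / (b : ℝ) ^ ((r + 2 * Y * i) ^ 2 / (8 * Y))) R hY hrlt ?_ ?_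
    · rw [← hasSum_nat_add_iff (f := fun j : ℕ =>
        (b : ℝ) ^ K / (b : ℝ) ^ ((r + 2 * Y * j) ^ 2 / (8 * Y))) q]
      have hfun : (fun m : ℕ => (b : ℝ) ^ K / (b : ℝ) ^ ((r + 2 * Y * (m + q)) ^ 2 / (8 * Y))) =
          fun m : ℕ => 1 / (b : ℝ) ^ (G * m + Y * (m * (m - 1) / 2)) := by
        funext m
        rw [hterm m, pow_add]
        field_simp
      rw [hfun]
      exact hH
    · rw [sum_congr rfl hfin, hR]
      push_cast
      ring
  · -- `κ = 2 G - Y < 0`
    obtain ⟨κ, hκ⟩ : ∃ κ : ℕ, Y = 2 * G + κ := ⟨Y - 2 * G, by omega⟩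
    set K := κ ^ 2 / (8 * Y) with hK
    have hterm : ∀ m : ℕ, (Y + 2 * G + 2 * Y * m) ^ 2 / (8 * Y) =
        K + (G * (m + 1) + Y * ((m + 1) * (m + 1 - 1) / 2)) := by
      intro m
      have h2 : (Y + 2 * G + 2 * Y * m) ^ 2 = κ ^ 2 +
          8 * Y * (G * (m + 1) + Y * ((m + 1) * (m + 1 - 1) / 2)) := by
        have h3 := two_tri (m + 1)
        have h4 : 8 * Y * (G * (m + 1) + Y * ((m + 1) * (m + 1 - 1) / 2)) =
            8 * Y * G * (m + 1) + 4 * Y * Y * (2 * ((m + 1) * (m + 1 - 1) / 2)) := by ring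
        have h5 : 4 * Y * Y * (2 * ((m + 1) * (m + 1 - 1) / 2)) = 4 * Y * Y * ((m + 1) * m) := by
          have : 2 * ((m + 1) * (m + 1 - 1) / 2) = (m + 1) * m := by
            have : (m + 1) * (m + 1) = (m + 1) * m + (m + 1) := by ring
            omega
          rw [this]
        rw [h4, h5, hκ]
        ring
      rw [h2, Nat.add_mul_div_left _ _ (by omega : 0 < 8 * Y)]
    have h1 := (hasSum_nat_add_iff' (f := fun m : ℕ =>
      1 / (b : ℝ) ^ (G * m + Y * (m * (m - 1) / 2))) 1).mpr hH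
    refine can_of b Y (Y + 2 * G) K x _ 1 hY (by omega) ?_ rfl
    have hfun : (fun m : ℕ => (b : ℝ) ^ K / (b : ℝ) ^ ((Y + 2 * G + 2 * Y * m) ^ 2 / (8 * Y))) =
        fun m : ℕ => 1 / (b : ℝ) ^ (G * (m + 1) + Y * ((m + 1) * (m + 1 - 1) / 2)) := by
      funext m
      rw [hterm m, pow_add]
      field_simp
    rw [hfun]
    have hval : x - ∑ i ∈ range 1, 1 / (b : ℝ) ^ (G * i + Y * (i * (i - 1) / 2)) =
        x - ((1 : ℤ) : ℝ) := by simp
    rw [← hval]
    exact h1

end Pool.Agent.Lib.MP_2e793b_nt.H18
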